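import Mathlib
import Pool.Agent.Work.MP_17736e_nt.Final

namespace Pool.Agent.Results.MP_17736e_nt.FunarLimit

open Filter Topology

/-- `S n k` is the sum of the remainders of `n` upon division by `1, 2, ..., k`. -/
def S (n k : ℕ) : ℕ := ∑ i ∈ Finset.Icc 1 k, n % i

/-- The sequence `S(2^n, n) / n^2` does not converge to `1 - π^2 / 12`. -/
theorem result :
    ¬ Tendsto (fun n : ℕ => (S (2 ^ n) n : ℝ) / (n : ℝ) ^ 2) atTop
      (𝓝 (1 - Real.pi ^ 2 / 12)) :=
  Pool.Agent.Work.MP_17736e_nt.not_tendsto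

end Pool.Agent.Results.MP_17736e_nt.FunarLimit
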